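import Mathlib
import Pool.Agent.H26.StoneG
import Pool.Agent.H26.Nik

/-! A maximal subalgebra of `Bor(2^ℕ)` with property (T) that is not Grothendieck. -/

namespace Pool.Agent.Results.MP_54cd88_an.NotGrothendieck

open Set Filter Topology MeasureTheory BoundedContinuousFunction Pool.Agent.H26.StoneG

/-- The standard product measure `λ` on the Cantor space. -/
noncomputable def lam : Measure (ℕ → Bool) :=
  Measure.infinitePi (fun _ : ℕ => ProbabilityTheory.uniformOn (Set.univ : Set Bool))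

/-- `V_m^i`. -/
def V (m : ℕ) (i : Bool) : Set (ℕ → Bool) := {x | x m = i}

/-- The atoms of `𝒜_n`: the points agreeing with `s` on the coordinates `0, …, n`. -/
def atom (n : ℕ) (s : ℕ → Bool) : Set (ℕ → Bool) := {x | ∀ i ≤ n, x i = s i}

/-- `φ_m(A) = |λ(A ∩ V_m^0) - λ(A ∩ V_m^1)|`. -/
noncomputable def phi (m : ℕ) (A : Set (ℕ → Bool)) : ℝ :=
  |lam.real (A ∩ V m false) - lam.real (A ∩ V m true)|

/-- `𝓑` is an algebra of Borel sets containing the clopen sets and having property (T). -/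
def PropT (𝓑 : Set (Set (ℕ → Bool))) : Prop :=
  IsSetAlgebra 𝓑 ∧ (∀ A ∈ 𝓑, @MeasurableSet _ (borel (ℕ → Bool)) A) ∧
    (∀ A, IsClopen A → A ∈ 𝓑) ∧
    ∀ F : Finset (Set (ℕ → Bool)), (∀ A ∈ F, A ∈ 𝓑) → ∀ ε : ℝ, 0 < ε → ∃ n : ℕ, 1 ≤ n ∧
      ∀ A ∈ F, ∀ s : ℕ → Bool,
        min (lam.real (A ∩ atom n s)) (lam.real (atom n s \ A)) ≤ ε * lam.real (atom n s) / n ∧
        ∀ m : ℕ, n < m → m * phi m (A ∩ atom n s) ≤ ε * lam.real (atom n s)

/-- Maximal among the subalgebras of `Bor(2^ℕ)` with property (T). -/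
def MaximalT (𝓑 : Set (Set (ℕ → Bool))) : Prop :=
  PropT 𝓑 ∧ ∀ 𝓒, PropT 𝓒 → 𝓑 ⊆ 𝓒 → 𝓒 = 𝓑

lemma prob : IsProbabilityMeasure lam := by unfold lam; infer_instance

def cyl (N : ℕ) (s : ℕ → Bool) : Set (ℕ → Bool) := {x | ∀ i < N, x i = s i}

lemma atom_eq (n : ℕ) (s : ℕ → Bool) : atom n s = cyl (n + 1) s := by
  ext x; simp [atom, cyl, Nat.lt_succ_iff]

lemma cyl_pi (N : ℕ) (s : ℕ → Bool) :
    cyl N s = Set.pi (Finset.range N : Set ℕ) (fun i => {s i}) := by
  ext x; simp [cyl]

lemma cyl_clopen (N : ℕ) (s : ℕ → Bool) : IsClopen (cyl N s) := by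
  rw [cyl_pi]
  exact ⟨isClosed_set_pi (fun _ _ => isClosed_discrete _),
    isOpen_set_pi (Finset.finite_toSet _) (fun _ _ => isOpen_discrete _)⟩

lemma V_clopen (m : ℕ) (i : Bool) : IsClopen (V m i) :=
  (isClopen_discrete {i}).preimage (continuous_apply m)

lemma cyl_meas (N : ℕ) (s : ℕ → Bool) : MeasurableSet (cyl N s) :=
  (cyl_clopen N s).isOpen.measurableSet

lemma coin (b : Bool) : ProbabilityTheory.uniformOn (Set.univ : Set Bool) {b} = 2⁻¹ := by
  rw [ProbabilityTheory.uniformOn_univ]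
  simp

lemma lam_cyl (N : ℕ) (s : ℕ → Bool) : lam.real (cyl N s) = (1 / 2) ^ N := by
  rw [cyl_pi, Measure.real, lam, Measure.infinitePi_pi _ (fun _ _ => measurableSet_singleton _)]
  simp only [coin]
  simp

noncomputable def psi (m : ℕ) (A : Set (ℕ → Bool)) : ℝ :=
  lam.real (A ∩ V m false) - lam.real (A ∩ V m true)

lemma psi_union (m : ℕ) {A B : Set (ℕ → Bool)} (hB : MeasurableSet B) (h : Disjoint A B) :
    psi m (A ∪ B) = psi m A + psi m B := by
  haveI := prob
  have : ∀ i, lam.real ((A ∪ B) ∩ V m i) = lam.real (A ∩ V m i) + lam.real (B ∩ V m i) := by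
    intro i
    rw [union_inter_distrib_right, measureReal_union (h.mono inter_subset_left inter_subset_left)
      (hB.inter (V_clopen m i).isOpen.measurableSet)]
  simp only [psi, this]; ring

lemma psi_le (m : ℕ) {A B : Set (ℕ → Bool)} (h : A ⊆ B) : |psi m A| ≤ lam.real B := by
  haveI := prob
  have : ∀ i, lam.real (A ∩ V m i) ≤ lam.real B := fun i =>
    measureReal_mono (inter_subset_left.trans h)
  have h0 : ∀ i, 0 ≤ lam.real (A ∩ V m i) := fun i => measureReal_nonneg
  rw [psi, abs_le]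
  constructor <;> linarith [this true, this false, h0 true, h0 false]

lemma psi_zero (k : ℕ) {D : Set (ℕ → Bool)} (hD : MeasurableSet D)
    (h : ∀ x ∈ D, ∀ y : ℕ → Bool, (∀ i < k, y i = x i) → y ∈ D) : psi k D = 0 := by
  let f : ℕ → Bool → Bool := fun i b => if i = k then !b else b
  have hf : ∀ i, Measurable (f i) := fun i => measurable_from_top
  have h1 : lam.map (fun x i => f i (x i)) = lam := by
    rw [lam, Measure.infinitePi_map_pi _ hf]
    congr 1
    funext i
    refine Measure.ext_of_singleton (fun b => ?_)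
    rw [Measure.map_apply (hf i) (measurableSet_singleton _)]
    have : f i ⁻¹' {b} = {f i b} := by
      ext c
      simp only [f, mem_preimage, mem_singleton_iff]
      split_ifs <;> cases b <;> cases c <;> simp
    rw [this, coin, coin]
  have h2 : (fun x i => f i (x i)) ⁻¹' (D ∩ V k false) = D ∩ V k true := by
    ext x
    have : (fun i => f i (x i)) ∈ D ↔ x ∈ D :=
      ⟨fun hx => h _ hx _ (fun i hi => by simp [f, hi.ne]),
        fun hx => h _ hx _ (fun i hi => by simp [f, hi.ne])⟩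
    simp [V, this, f]
  rw [psi, sub_eq_zero, ← h2, Measure.real, Measure.real, ← Measure.map_apply (by fun_prop)
    (hD.inter (V_clopen _ _).isOpen.measurableSet), h1]

lemma psi_cyl {k N : ℕ} (h : N ≤ k) (s : ℕ → Bool) : psi k (cyl N s) = 0 :=
  psi_zero k (cyl_meas N s) (fun _ hx _ hy i hi => (hy i (lt_of_lt_of_le hi h)).trans (hx i hi))

lemma psi_bdd {𝓑 : Set (Set (ℕ → Bool))} (h : PropT 𝓑) {A : Set (ℕ → Bool)} (hA : A ∈ 𝓑) :
    ∃ C, ∀ k : ℕ, |k * psi k A| ≤ C := by
  haveI := prob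
  obtain ⟨n, -, hn⟩ := h.2.2.2 {A} (by simpa using hA) 1 one_pos
  have hAm : MeasurableSet A := by
    have := h.2.1 A hA
    rwa [← BorelSpace.measurable_eq] at this
  refine ⟨n + 1, fun k => ?_⟩
  rw [abs_mul, Nat.abs_cast]
  by_cases hk : n < k
  swap
  · have h1 := psi_le k (subset_univ A)
    have h2 : (k : ℝ) ≤ n := by exact_mod_cast not_lt.1 hk
    rw [probReal_univ] at h1
    nlinarith [abs_nonneg (psi k A)]
  have key : ∀ d j, j + d = n + 1 → ∀ s, k * |psi k (A ∩ cyl j s)| ≤ (1 / 2) ^ j := by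
    intro d
    induction d with
    | zero =>
      intro j hj s
      have := (hn A (by simp) s).2 k hk
      rw [atom_eq, lam_cyl, one_mul, ← hj] at this
      exact this
    | succ d ih =>
      intro j hj s
      have h1 : A ∩ cyl j s = A ∩ cyl (j + 1) (Function.update s j false) ∪
          A ∩ cyl (j + 1) (Function.update s j true) := by
        rw [← inter_union_distrib_left]
        congr 1
        ext x
        have : ∀ b, x ∈ cyl (j + 1) (Function.update s j b) ↔ x ∈ cyl j s ∧ x j = b := by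
          intro b
          simp only [cyl, mem_setOf_eq, Nat.forall_lt_succ_right, Function.update_self]
          refine and_congr_left (fun _ => forall₂_congr (fun i hi => ?_))
          rw [Function.update_of_ne hi.ne]
        simp only [mem_union, this]
        cases x j <;> simp
      rw [h1, psi_union k (hAm.inter (cyl_meas _ _))]
      · have h2 := ih (j + 1) (by omega) (Function.update s j false)
        have h3 := ih (j + 1) (by omega) (Function.update s j true)
        have h4 := mul_le_mul_of_nonneg_left (abs_add_le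
          (psi k (A ∩ cyl (j + 1) (Function.update s j false)))
          (psi k (A ∩ cyl (j + 1) (Function.update s j true)))) (Nat.cast_nonneg (α := ℝ) k)
        rw [pow_succ] at h2 h3
        linarith
      · refine Set.disjoint_left.2 (fun x h1 h2 => ?_)
        have h3 := (h1.2 j (Nat.lt_succ_self j)).symm.trans (h2.2 j (Nat.lt_succ_self j))
        simp at h3
  have := key (n + 1) 0 (by simp) (fun _ => true)
  simp only [cyl, not_lt_zero', IsEmpty.forall_iff, implies_true, setOf_true, inter_univ,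
    pow_zero] at this
  linarith [Nat.cast_nonneg (α := ℝ) n]

def U (j : ℕ) : Set (ℕ → Bool) := cyl (j + 1) (fun i => decide (i = j))

lemma mem_U {j : ℕ} {x : ℕ → Bool} : x ∈ U j ↔ (∀ i < j, x i = false) ∧ x j = true := by
  simp only [U, cyl, mem_setOf_eq, Nat.forall_lt_succ_right, decide_true]
  exact and_congr_left (fun _ => forall₂_congr (fun i hi => by simp [hi.ne]))

lemma U_eq {i j : ℕ} {x : ℕ → Bool} (hi : x ∈ U i) (hj : x ∈ U j) : i = j := by
  rw [mem_U] at hi hj
  rcases lt_trichotomy i j with h | h | h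
  · have := (hj.1 i h).symm.trans hi.2; simp at this
  · exact h
  · have := (hi.1 j h).symm.trans hj.2; simp at this

def B (g : ℕ → ℕ) (S : Set ℕ) : Set (ℕ → Bool) := {x | ∃ m ∈ S, x ∈ U (g m)}

lemma B_meas (g : ℕ → ℕ) (S : Set ℕ) : MeasurableSet (B g S) := by
  have : B g S = ⋃ m ∈ S, U (g m) := by ext x; simp [B]
  rw [this]
  exact MeasurableSet.biUnion (to_countable S) (fun _ _ => cyl_meas _ _)

def B0 (g : ℕ → ℕ) : Set (Set (ℕ → Bool)) := {A | MeasurableSet A ∧ ∀ᶠ n in atTop, ∀ s, ∃ S,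
  A ∩ cyl n s = B g S ∩ cyl n s ∨ Aᶜ ∩ cyl n s = B g S ∩ cyl n s}

lemma propT_B0 {g : ℕ → ℕ} (hg : StrictMono g)
    (hg' : ∀ m, ∀ M : ℕ, g (m + 1) ≤ M → M * (1 / 2 : ℝ) ^ M ≤ 1 / (m + 1) * (1 / 2) ^ (g m + 1)) :
    PropT (B0 g) := by
  haveI := prob
  have hmem : ∀ {S x m}, x ∈ U (g m) → (x ∈ B g S ↔ m ∈ S) := by
    intro S x m hx
    exact ⟨fun ⟨m', h1, h2⟩ => hg.injective (U_eq h2 hx) ▸ h1, fun h => ⟨m, h, hx⟩⟩
  have hcases : ∀ x, (∃ m, x ∈ U (g m)) ∨ ∀ S, x ∉ B g S := fun x => by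
    by_cases h : ∃ m, x ∈ U (g m)
    · exact Or.inl h
    · exact Or.inr (fun S ⟨m, _, h'⟩ => h ⟨m, h'⟩)
  refine ⟨⟨⟨MeasurableSet.empty, Eventually.of_forall fun n s => ⟨∅, Or.inl (by simp [B])⟩⟩,
    ?_, ?_⟩, ?_, ?_, ?_⟩
  · rintro A ⟨h1, h2⟩
    refine ⟨h1.compl, h2.mono fun n hn s => (hn s).imp fun S h => ?_⟩
    rw [compl_compl]; exact h.symm
  · rintro A A' ⟨h1, h2⟩ ⟨h3, h4⟩
    refine ⟨h1.union h3, (h2.and h4).mono fun n hn s => ?_⟩
    obtain ⟨S, hS⟩ := hn.1 s
    obtain ⟨S', hS'⟩ := hn.2 s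
    simp only [Set.ext_iff, mem_inter_iff, mem_union, mem_compl_iff] at hS hS' ⊢
    rcases hS with hS | hS <;> rcases hS' with hS' | hS'
    · refine ⟨S ∪ S', Or.inl fun x => ?_⟩
      have := hS x; have := hS' x
      rcases hcases x with ⟨m, hm⟩ | h
      · simp only [hmem hm, mem_union] at *; tauto
      · simp only [h] at *; tauto
    · refine ⟨S' \ S, Or.inr fun x => ?_⟩
      have := hS x; have := hS' x
      rcases hcases x with ⟨m, hm⟩ | h
      · simp only [hmem hm, mem_diff] at *; tauto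
      · simp only [h] at *; tauto
    · refine ⟨S \ S', Or.inr fun x => ?_⟩
      have := hS x; have := hS' x
      rcases hcases x with ⟨m, hm⟩ | h
      · simp only [hmem hm, mem_diff] at *; tauto
      · simp only [h] at *; tauto
    · refine ⟨S ∩ S', Or.inr fun x => ?_⟩
      have := hS x; have := hS' x
      rcases hcases x with ⟨m, hm⟩ | h
      · simp only [hmem hm, mem_inter_iff] at *; tauto
      · simp only [h] at *; tauto
  · intro A hA
    rw [← BorelSpace.measurable_eq]; exact hA.1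
  · intro A hA
    refine ⟨hA.isOpen.measurableSet, ?_⟩
    have hloc : ∀ x : ℕ → Bool, ∃ N, ∀ y ∈ cyl N x, (y ∈ A ↔ x ∈ A) := by
      intro x
      have : {y | y ∈ A ↔ x ∈ A} ∈ 𝓝 x := by
        by_cases hx : x ∈ A
        · simpa [hx] using hA.isOpen.mem_nhds hx
        · simp only [hx, iff_false]
          exact hA.compl.isOpen.mem_nhds hx
      obtain ⟨_, ⟨x', M, rfl⟩, h1, h2⟩ :=
        (PiNat.isTopologicalBasis_cylinders (fun _ => Bool)).mem_nhds_iff.1 this
      exact ⟨M, fun y hy => h2 (fun m hm => (hy m hm).trans (h1 m hm))⟩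
    choose N hN using hloc
    obtain ⟨t, ht⟩ := isCompact_univ.elim_finite_subcover (fun x => cyl (N x) x)
      (fun x => (cyl_clopen _ _).isOpen) (fun x _ => mem_iUnion.2 ⟨x, fun _ _ => rfl⟩)
    filter_upwards [eventually_ge_atTop (t.sup N)] with n hn s
    obtain ⟨x, hx, hs⟩ := mem_iUnion₂.1 (ht (mem_univ s))
    have h1 : ∀ y ∈ cyl n s, (y ∈ A ↔ x ∈ A) := fun y hy => hN x y (fun i hi =>
      (hy i (lt_of_lt_of_le hi ((Finset.le_sup hx).trans hn))).trans (hs i hi))
    refine ⟨∅, ?_⟩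
    simp only [B, mem_empty_iff_false, false_and, exists_false, setOf_false, empty_inter,
      eq_empty_iff_forall_notMem, mem_inter_iff, mem_compl_iff]
    by_cases hx : x ∈ A
    · exact Or.inr (fun y hy => hy.1 ((h1 y hy.2).2 hx))
    · exact Or.inl (fun y hy => hx ((h1 y hy.2).1 hy.1))
  · intro F hF ε hε
    obtain ⟨N, hN⟩ := eventually_atTop.1 ((eventually_all_finset F).2 (fun A hA => (hF A hA).2))
    obtain ⟨m0, hm0⟩ := exists_nat_one_div_lt hε
    set m := N + m0 + 1
    have hm : m ≤ g m := hg.id_le m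
    have hmε : 1 / ((m : ℝ) + 1) ≤ ε :=
      le_trans (Nat.one_div_le_one_div (by omega)) hm0.le
    have hlt : g m < g (m + 1) := hg (Nat.lt_succ_self m)
    have hb : ∀ M k : ℕ, g (m + 1) ≤ M → k ≤ M →
        k * (1 / 2 : ℝ) ^ M ≤ ε * (1 / 2) ^ (g m + 1) := by
      intro M k h1 h2
      refine le_trans ?_ ((hg' m M h1).trans ?_)
      · gcongr
      · gcongr
    refine ⟨g m, by omega, fun A hA s => ?_⟩
    obtain ⟨S, hS⟩ := hN (g m + 1) (by omega) A hA s
    rw [atom_eq, lam_cyl]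
    set D := B g S ∩ cyl (g m + 1) s with hD
    have hDm : MeasurableSet D := (B_meas _ _).inter (cyl_meas _ _)
    have hpos : (0 : ℝ) < g m := by exact_mod_cast (show 0 < g m by omega)
    have hD' : (D = cyl (g m + 1) s ∨ lam.real D ≤ ε * (1 / 2) ^ (g m + 1) / g m) ∧
        ∀ k : ℕ, g m < k → k * |psi k D| ≤ ε * (1 / 2) ^ (g m + 1) := by
      by_cases hc : D = cyl (g m + 1) s
      · refine ⟨Or.inl hc, fun k hk => ?_⟩
        rw [hc, psi_cyl hk]
        simp only [abs_zero, mul_zero]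
        positivity
      have h1 : D ⊆ cyl (g (m + 1)) (fun _ => false) := by
        rintro x ⟨⟨j, hj, hx⟩, hxs⟩ i hi
        by_cases hjm : j ≤ m
        · refine absurd (inter_eq_self_of_subset_right (s := B g S)
            (fun y hy => ⟨j, hj, fun l hl => ?_⟩)) hc
          have := hg.monotone hjm
          rw [hy l (by omega), ← hxs l (by omega), hx l hl]
        · exact (mem_U.1 hx).1 i (lt_of_lt_of_le hi (hg.monotone (by omega)))
      refine ⟨Or.inr ?_, fun k hk => ?_⟩
      · rw [le_div_iff₀ hpos, mul_comm]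
        refine le_trans ?_ (hb _ (g m) le_rfl hlt.le)
        rw [← lam_cyl _ (fun _ => false)]
        exact mul_le_mul_of_nonneg_left (measureReal_mono h1) hpos.le
      · rw [← diff_union_inter D (cyl k (fun _ => false)),
          psi_union k (hDm.inter (cyl_meas _ _)) disjoint_sdiff_inter,
          psi_zero k (hDm.diff (cyl_meas _ _)), zero_add]
        · refine le_trans ?_ (hb (max k (g (m + 1))) k (le_max_right _ _) (le_max_left _ _))
          rw [← lam_cyl _ (fun _ => false)]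
          refine mul_le_mul_of_nonneg_left (psi_le k ?_) (Nat.cast_nonneg _)
          rintro x ⟨hx1, hx2⟩ i hi
          rcases lt_max_iff.1 hi with h | h
          · exact hx2 i h
          · exact h1 hx1 i h
        · rintro x ⟨⟨⟨j, hj, hx⟩, hxs⟩, hxk⟩ y hy
          have hjk : g j < k := by
            by_contra h
            exact hxk (fun i hi => (mem_U.1 hx).1 i (by omega))
          refine ⟨⟨⟨j, hj, fun l hl => ?_⟩, fun l hl => ?_⟩, fun h => hxk (fun l hl => ?_)⟩
          · rw [hy l (by omega), hx l hl]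
          · rw [hy l (by omega), hxs l hl]
          · rw [← hy l hl, h l hl]
    have h0 : 0 ≤ ε * (1 / 2) ^ (g m + 1) / g m := by positivity
    rcases hS with hS | hS
    · refine ⟨?_, fun k hk => by rw [hS]; exact hD'.2 k hk⟩
      rcases hD'.1 with h | h
      · refine (min_le_right _ _).trans ?_
        rw [diff_eq_empty.2 (inter_eq_right.1 (hS.trans h)), measureReal_empty]
        exact h0
      · rw [hS]; exact (min_le_left _ _).trans h
    · have hS' : cyl (g m + 1) s \ A = D := by rw [← hS, diff_eq_compl_inter]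
      refine ⟨?_, fun k hk => ?_⟩
      · rcases hD'.1 with h | h
        · refine (min_le_left _ _).trans ?_
          rw [Set.disjoint_iff_inter_eq_empty.1 (sdiff_eq_left.1 (hS'.trans h)).symm,
            measureReal_empty]
          exact h0
        · rw [hS']; exact (min_le_right _ _).trans h
      · have h2 := psi_union k hDm (A := A ∩ cyl (g m + 1) s)
          (by rw [← hS']; exact disjoint_sdiff_right.mono_left inter_subset_left)
        rw [← hS', inter_comm A, inter_union_diff, psi_cyl hk, hS', inter_comm _ A] at h2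
        have h3 : phi k (A ∩ cyl (g m + 1) s) = |psi k D| := by
          rw [← abs_neg (psi k D), ← eq_neg_of_add_eq_zero_left h2.symm]; rfl
        rw [h3]; exact hD'.2 k hk

theorem result : ∃ 𝓑 : Set (Set (ℕ → Bool)), MaximalT 𝓑 ∧ ¬ IsGrothendieck (Stone 𝓑 →ᵇ ℝ) := by
  haveI := prob
  have hex : ∀ m n : ℕ, ∃ G, n < G ∧ ∀ M : ℕ, G ≤ M →
      M * (1 / 2 : ℝ) ^ M ≤ 1 / (m + 1) * (1 / 2) ^ (n + 1) := by
    intro m n
    obtain ⟨G, hG⟩ := eventually_atTop.1 ((tendsto_self_mul_const_pow_of_lt_one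
      (r := 1 / 2) (by norm_num) (by norm_num)).eventually
        (ge_mem_nhds (show (0 : ℝ) < 1 / (m + 1) * (1 / 2) ^ (n + 1) by positivity)))
    exact ⟨G + n + 1, by omega, fun M hM => hG M (by omega)⟩
  choose G hG1 hG2 using hex
  let g : ℕ → ℕ := fun m => Nat.rec 0 (fun m n => G m n) m
  have hg : StrictMono g := strictMono_nat_of_lt_succ (fun m => hG1 m (g m))
  obtain ⟨𝓑, h0, hmax⟩ := zorn_subset_nonempty {𝓑 | PropT 𝓑} (by
    intro c hc hch ⟨C, hC⟩
    refine ⟨⋃₀ c, ⟨⟨⟨C, hC, (hc hC).1.empty_mem⟩, ?_, ?_⟩, ?_, ?_, ?_⟩,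
      fun s hs => subset_sUnion_of_mem hs⟩
    · rintro A ⟨I, hI, hA⟩
      exact ⟨I, hI, (hc hI).1.compl_mem hA⟩
    · rintro A B ⟨I, hI, hA⟩ ⟨J, hJ, hB⟩
      rcases hch.total hI hJ with h | h
      · exact ⟨J, hJ, (hc hJ).1.union_mem (h hA) hB⟩
      · exact ⟨I, hI, (hc hI).1.union_mem hA (h hB)⟩
    · rintro A ⟨I, hI, hA⟩
      exact (hc hI).2.1 A hA
    · exact fun A hA => ⟨C, hC, (hc hC).2.2.1 A hA⟩
    · intro F hF
      haveI : Nonempty c := ⟨⟨C, hC⟩⟩
      obtain ⟨I, hI⟩ := (directedOn_iff_directed.1 hch.directedOn).exists_mem_subset_of_finset_subset_biUnion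
        (s := F) (fun A hA => by
          obtain ⟨I, hI, h⟩ := hF A hA
          exact mem_iUnion.2 ⟨⟨I, hI⟩, h⟩)
      exact (hc I.2).2.2.2 F hI) (B0 g) (propT_B0 hg (fun m => hG2 m (g m)))
  have hT : PropT 𝓑 := hmax.prop
  refine ⟨𝓑, ⟨hT, fun 𝓒 h1 h2 => subset_antisymm (hmax.le_of_ge h1 h2) h2⟩, ?_⟩
  have hm : ∀ A ∈ 𝓑, MeasurableSet A := fun A hA => by
    have := hT.2.1 A hA
    rwa [← BorelSpace.measurable_eq] at this
  let K : ℕ → ℕ := fun m => (m + 1) * 2 ^ (g m + 1)
  have hK : ∀ m, g m + 1 ≤ K m := fun m =>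
    Nat.lt_two_pow_self.le.trans (Nat.le_mul_of_pos_left _ (Nat.succ_pos m))
  have hhalf : ∀ m, (2 : ℝ) ^ (g m + 1) * lam.real (U (g m) ∩ V (K m) false) = 1 / 2 ∧
      (2 : ℝ) ^ (g m + 1) * lam.real (U (g m) ∩ V (K m) true) = 1 / 2 := by
    intro m
    have h1 : psi (K m) (U (g m)) = 0 := psi_cyl (hK m) _
    have h2 := measureReal_inter_add_diff (μ := lam) (s := U (g m))
      (V_clopen (K m) false).isOpen.measurableSet
    have h3 : U (g m) \ V (K m) false = U (g m) ∩ V (K m) true := by ext x; simp [V]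
    rw [h3, U, lam_cyl, ← U] at h2
    have h4 : (2 : ℝ) ^ (g m + 1) * (1 / 2) ^ (g m + 1) = 1 := by rw [← mul_pow]; simp
    rw [psi, sub_eq_zero] at h1
    rw [← h2, h1] at h4
    rw [h1]
    constructor <;> linarith
  refine not_groth lam hT.1 hm (fun m => U (g m) ∩ V (K m) false) (fun m => U (g m) ∩ V (K m) true)
    (fun m => 2 ^ (g m + 1)) (fun m => hT.2.2.1 _ ((cyl_clopen _ _).inter (V_clopen _ _)))
    (fun m => by positivity) (fun m => (hhalf m).1) (fun m => (hhalf m).2) ?_ ?_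
  · intro j m
    refine Set.disjoint_left.2 (fun x h1 h2 => ?_)
    obtain rfl := hg.injective (U_eq h1.1 h2.1)
    have := h1.2.symm.trans h2.2
    simp at this
  · intro A hA
    obtain ⟨C, hC⟩ := Pool.Agent.H26.Nik.nik_univ (fun m S => K m * psi (K m) (A ∩ B g S)) (by
      intro m S S' h
      have : A ∩ B g (S ∪ S') = A ∩ B g S ∪ A ∩ B g S' := by
        ext x
        simp only [B, mem_inter_iff, mem_setOf_eq, mem_union, or_and_right, exists_or, and_or_left]
      rw [this, psi_union _ ((hm A hA).inter (B_meas _ _)), mul_add]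
      refine Set.disjoint_left.2 ?_
      rintro x ⟨-, j, h1, h2⟩ ⟨-, j', h3, h4⟩
      obtain rfl := hg.injective (U_eq h2 h4)
      exact Set.disjoint_left.1 h h1 h3)
      (fun m => ⟨K m * lam.real univ, fun S => by
        rw [abs_mul, Nat.abs_cast]
        exact mul_le_mul_of_nonneg_left (psi_le _ (subset_univ _)) (Nat.cast_nonneg _)⟩)
      (fun S => (psi_bdd hT (hT.1.inter_mem hA (h0 ⟨B_meas g S,
        Eventually.of_forall fun n s => ⟨S, Or.inl rfl⟩⟩))).imp (fun C h m => h _))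
    rw [tendsto_zero_iff_abs_tendsto_zero]
    refine squeeze_zero (fun _ => abs_nonneg _) (fun m => ?_)
      (by simpa using tendsto_one_div_add_atTop_nhds_zero_nat.const_mul C)
    have h1 := hC m {m}
    have h2 : B g {m} = U (g m) := by ext x; simp [B]
    rw [h2, psi, inter_assoc, inter_assoc] at h1
    simp only [K, Function.comp_apply] at h1 ⊢
    push_cast at h1
    rw [mul_assoc, abs_mul, abs_of_pos (by positivity : (0 : ℝ) < m + 1)] at h1
    rw [← div_eq_mul_inv, le_div_iff₀ (by positivity), mul_comm]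
    exact h1

end Pool.Agent.Results.MP_54cd88_an.NotGrothendieck
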